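import Pool.Agent.W207.PF.SpecB
import Pool.Agent.W207.PR.Bridge

/-!
# PF-FD: Montgomery's function as in the problem file
-/

set_option autoImplicit false

open Complex Filter Topology Set MeasureTheory
open scoped BigOperators

namespace Pool.Agent.W376.PF

open W207.PR W207.PF

theorem fd : W207.PF.S_FD := by
  intro T α hT
  have hT0 : 0 < T := by linarith
  have hX : 0 < T / (2 * Real.pi) * Real.log T :=
    mul_pos (div_pos hT0 (by positivity)) (Real.log_pos (by linarith))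
  set A : ℂ → ℂ → ℝ := fun s s' => mz s * mz s' *
    (Real.cos (α * Real.log T * (s.im - s'.im)) * (4 / (4 + (s.im - s'.im) ^ 2))) with hA
  set B : ℂ → ℂ → ℝ := fun s s' => mz s * mz s' *
    (Real.sin (α * Real.log T * (s.im - s'.im)) * (4 / (4 + (s.im - s'.im) ^ 2))) with hB
  have hpow : ∀ d : ℝ, (T : ℂ) ^ (I * (α : ℂ) * (d : ℂ)) =
      (Real.cos (α * Real.log T * d) : ℂ) + (Real.sin (α * Real.log T * d) : ℂ) * I := by
    intro d
    rw [Complex.cpow_def_of_ne_zero (by exact_mod_cast hT0.ne'), ← Complex.ofReal_log hT0.le]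
    have e : (Real.log T : ℂ) * (I * (α : ℂ) * (d : ℂ)) = ((α * Real.log T * d : ℝ) : ℂ) * I := by
      push_cast
      ring
    rw [e, Complex.exp_mul_I, Complex.ofReal_cos, Complex.ofReal_sin]
  have h1 : FC T α = ∑ s ∈ ZT T, ∑ s' ∈ ZT T, ((A s s' : ℂ) + (B s s' : ℂ) * I) := by
    unfold FC
    have hz : zer T = Zs T := rfl
    rw [hz, finsum_mem_eq_finite_toFinset_sum _ (Zs_finite T), Zs_toFinset]
    refine Finset.sum_congr rfl fun s _ => ?_
    rw [finsum_mem_eq_finite_toFinset_sum _ (Zs_finite T), Zs_toFinset]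
    refine Finset.sum_congr rfl fun s' _ => ?_
    rw [hpow]
    have e1 : (analyticOrderNatAt riemannZeta s : ℂ) = ((mz s : ℝ) : ℂ) := by
      rw [mz_eq]; unfold mu; push_cast; rfl
    have e2 : (analyticOrderNatAt riemannZeta s' : ℂ) = ((mz s' : ℝ) : ℂ) := by
      rw [mz_eq]; unfold mu; push_cast; rfl
    rw [e1, e2]
    simp only [hA, hB, Complex.ofReal_mul]
    ring
  have hBs : ∀ s s', B s' s = -B s s' := by
    intro s s'
    simp only [hB]
    have e1 : α * Real.log T * (s'.im - s.im) = -(α * Real.log T * (s.im - s'.im)) := by ring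
    have e2 : (s'.im - s.im) ^ 2 = (s.im - s'.im) ^ 2 := by ring
    rw [e1, e2, Real.sin_neg]
    ring
  have hB0 : ∑ s ∈ ZT T, ∑ s' ∈ ZT T, B s s' = 0 := by
    have h2 : ∑ s ∈ ZT T, ∑ s' ∈ ZT T, B s s' = -∑ s ∈ ZT T, ∑ s' ∈ ZT T, B s s' := by
      conv_lhs => rw [Finset.sum_comm]
      rw [← Finset.sum_neg_distrib]
      refine Finset.sum_congr rfl fun s _ => ?_
      rw [← Finset.sum_neg_distrib]
      exact Finset.sum_congr rfl fun s' _ => hBs s s'
    linarith
  have h3 : FF T α * (T / (2 * Real.pi) * Real.log T) = ∑ s ∈ ZT T, ∑ s' ∈ ZT T, A s s' := by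
    unfold FF
    have e : X T = T / (2 * Real.pi) * Real.log T := rfl
    rw [e, div_mul_cancel₀ _ hX.ne']
  rw [h1, h3]
  simp only [Finset.sum_add_distrib, ← Finset.sum_mul]
  rw [show (∑ s ∈ ZT T, ∑ s' ∈ ZT T, (B s s' : ℂ)) =
    ((∑ s ∈ ZT T, ∑ s' ∈ ZT T, B s s' : ℝ) : ℂ) by push_cast; rfl, hB0]
  push_cast
  ring

end Pool.Agent.W376.PF
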